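import Pool.Agent.NDR.StmtsG

/-!
# Squad NDR (MP_b48657_ag), row RRS: one parameter more
-/

set_option autoImplicit false
set_option linter.unusedSectionVars false

namespace Pool.Agent.NDR.H88

open Finset

section basic

variable {ι K : Type} [Field K]

theorem coeff_tht (v : ι) (h : Lr K ι) (m : ι → ℤ) :
    (tht v h).coeff m = ((m v : ℤ) : K) * h.coeff m := by
  classical
  unfold tht
  rw [AddMonoidAlgebra.coeff_ofCoeff, Finsupp.sum_apply]
  simp only [Finsupp.single_apply]
  rw [Finsupp.sum, Finset.sum_ite_eq']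
  split_ifs with h1
  · rfl
  · rw [Finsupp.notMem_support_iff.1 h1, mul_zero]

theorem coeff_cut (Q : Set (ι → ℤ)) [DecidablePred (· ∈ Q)] (h : Lr K ι) (m : ι → ℤ) :
    (cut Q h).coeff m = if m ∈ Q then h.coeff m else 0 := by
  classical
  unfold cut
  rw [AddMonoidAlgebra.coeff_ofCoeff, Finsupp.filter_apply]
  split_ifs <;> rfl

theorem tht_cut (v : ι) (Q : Set (ι → ℤ)) (h : Lr K ι) : tht v (cut Q h) = cut Q (tht v h) := by
  classical
  apply AddMonoidAlgebra.ext
  ext m
  rw [coeff_tht, coeff_cut, coeff_cut, coeff_tht]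
  split_ifs
  · rfl
  · rw [mul_zero]

theorem tht_mem {Q : Set (ι → ℤ)} (v : ι) {h : Lr K ι} (hh : h ∈ MS K Q) : tht v h ∈ MS K Q := by
  intro m hm
  rw [coeff_tht] at hm
  exact hh m (right_ne_zero_of_mul hm)

theorem spz_exp {K' : Type} [Field K'] [Algebra K K'] [DecidableEq ι] (r : ι) (t : K')
    (h : Lr K ι) (m : ι → ℤ) (hm : (spz r t h).coeff m ≠ 0) :
    ∃ m₀, h.coeff m₀ ≠ 0 ∧ m = Function.update m₀ r 0 := by
  classical
  unfold spz at hm
  rw [AddMonoidAlgebra.coeff_ofCoeff, Finsupp.sum_apply, Finsupp.sum] at hm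
  obtain ⟨m₀, h1, h2⟩ := Finset.exists_ne_zero_of_sum_ne_zero hm
  refine ⟨m₀, Finsupp.mem_support_iff.1 h1, ?_⟩
  by_contra hc
  apply h2
  rw [Finsupp.single_apply, if_neg (fun h3 => hc h3.symm)]

theorem mul_mem_MS {Q : Set (ι → ℤ)} {g h : Lr K ι}
    (hg : ∀ m, g.coeff m ≠ 0 → ∀ e ∈ Q, e + m ∈ Q) (hh : h ∈ MS K Q) : g * h ∈ MS K Q := by
  classical
  intro m hm
  have h1 : m ∈ (g * h).coeff.support := Finsupp.mem_support_iff.2 hm
  have h2 := AddMonoidAlgebra.support_coeff_mul_subset g h h1
  rw [Finset.mem_add] at h2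
  obtain ⟨a, ha, e, he, rfl⟩ := h2
  rw [add_comm]
  exact hg a (Finsupp.mem_support_iff.1 ha) e (hh e (Finsupp.mem_support_iff.1 he))

end basic

section koszul

variable {T R : Type} [CommRing R]

theorem kd_congr {a a' : T → R} {S : Finset T} (h : ∀ j ∈ S, a j = a' j) (x : Finset T → R)
    (U : Finset T) : kd a S x U = kd a' S x U := by
  classical
  unfold kd
  refine Finset.sum_congr rfl fun j hj => ?_
  rw [h j (Finset.mem_sdiff.1 hj).1]

theorem exp_congr {a a' : T → R} {S : Finset T} (h : ∀ j ∈ S, a j = a' j) (N N' : AddSubgroup R)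
    (i : ℕ) (hE : ExP a S N N' i) : ExP a' S N N' i := by
  intro x hx hk
  obtain ⟨y, hy, hxy⟩ := hE x hx (fun U => by
    rw [kd_congr h]
    exact hk U)
  refine ⟨y, hy, fun U => ?_⟩
  rw [← kd_congr h]
  exact hxy U

theorem kd_mul (a : T → R) (S : Finset T) (g : R) (y : Finset T → R) (U : Finset T) :
    kd a S (fun U => g * y U) U = g * kd a S y U := by
  classical
  unfold kd
  rw [Finset.mul_sum]
  refine Finset.sum_congr rfl fun j _ => ?_
  rw [zsmul_eq_mul, zsmul_eq_mul]
  ring

theorem chn_mul {S : Finset T} {N : AddSubgroup R} {i : ℕ} {y : Finset T → R} (g : R)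
    (hg : ∀ r ∈ N, g * r ∈ N) (hy : Chn S N i y) : Chn S N i (fun U => g * y U) := by
  intro U
  exact ⟨hg _ (hy U).1, fun h => (hy U).2 (right_ne_zero_of_mul h)⟩

end koszul

section ev

variable {ι K : Type} [Field K] [DecidableEq ι]

/-- `q(x_r)` -/
noncomputable def ev (r : ι) (q : Polynomial K) : Lr K ι :=
  q.sum fun n c => cst ι c * xr K r ^ n

theorem ev_eq (r : ι) (q : Polynomial K) :
    ev r q = q.eval₂ (AddMonoidAlgebra.singleZeroRingHom : K →+* Lr K ι) (xr K r) := by
  rw [Polynomial.eval₂_eq_sum]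
  rfl

theorem ev_mul (r : ι) (p q : Polynomial K) : ev r (p * q) = ev r p * ev r q := by
  rw [ev_eq, ev_eq, ev_eq, Polynomial.eval₂_mul]

theorem ev_C (r : ι) (c : K) : ev r (Polynomial.C c) = cst ι c := by
  rw [ev_eq, Polynomial.eval₂_C]
  rfl

theorem ev_lin (r : ι) (c : K) : ev r (Polynomial.X - Polynomial.C c) = xr K r - cst ι c := by
  rw [ev_eq, Polynomial.eval₂_sub, Polynomial.eval₂_X, Polynomial.eval₂_C]
  rfl

theorem cst_mul_cst (c d : K) : cst ι c * cst ι d = cst ι (c * d) := by
  unfold cst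
  rw [AddMonoidAlgebra.single_mul_single, add_zero]

theorem cst_one : cst ι (1 : K) = 1 := rfl

theorem cst_zero : cst ι (0 : K) = 0 := by
  unfold cst
  exact AddMonoidAlgebra.single_zero _

variable {Q : Set (ι → ℤ)} {r : ι} (hQ : ∀ m ∈ Q, ∀ n : ℤ, Function.update m r n ∈ Q)

theorem cst_mul_mem (c : K) {h : Lr K ι} (hh : h ∈ MS K Q) : cst ι c * h ∈ MS K Q := by
  classical
  refine mul_mem_MS ?_ hh
  intro m hm e he
  have h1 : m = 0 := by
    by_contra hc
    apply hm
    unfold cst
    rw [AddMonoidAlgebra.coeff_single, Finsupp.single_apply, if_neg (fun h => hc h.symm)]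
  rw [h1, add_zero]
  exact he

include hQ in
theorem single_mul_mem (k : ℤ) {h : Lr K ι} (hh : h ∈ MS K Q) :
    (AddMonoidAlgebra.single (Pi.single r k) 1 : Lr K ι) * h ∈ MS K Q := by
  classical
  refine mul_mem_MS ?_ hh
  intro m hm e he
  have h1 : m = Pi.single r k := by
    by_contra hc
    apply hm
    rw [AddMonoidAlgebra.coeff_single, Finsupp.single_apply, if_neg (fun h => hc h.symm)]
  have h2 : e + m = Function.update e r (e r + k) := by
    rw [h1]
    funext j
    by_cases hj : j = r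
    · subst hj
      simp
    · rw [Pi.add_apply, Pi.single_eq_of_ne hj, Function.update_of_ne hj, add_zero]
  rw [h2]
  exact hQ e he _

include hQ in
theorem ev_mul_mem (q : Polynomial K) {h : Lr K ι} (hh : h ∈ MS K Q) : ev r q * h ∈ MS K Q := by
  have hpow : ∀ n : ℕ, xr K r ^ n * h ∈ MS K Q := by
    intro n
    induction n with
    | zero => rwa [pow_zero, one_mul]
    | succ n ih =>
      rw [pow_succ', mul_assoc]
      exact single_mul_mem hQ 1 ih
  rw [ev_eq]
  induction q using Polynomial.induction_on' with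
  | add p q hp hq =>
    rw [Polynomial.eval₂_add, add_mul]
    exact (MS K Q).add_mem hp hq
  | monomial n a =>
    rw [Polynomial.eval₂_monomial, mul_assoc]
    exact cst_mul_mem a (hpow n)

end ev

theorem isF_subset {ι : Type} [Fintype ι] {I : Finset ι} {A F : Finset (ι → ℤ)}
    (h : IsF I A F) : F ⊆ A := by
  induction h with
  | base => exact Finset.Subset.refl _
  | step F ψ _ _ _ ih => exact (Finset.filter_subset _ _).trans ih

theorem inC_congr {ι : Type} {I : Finset ι} {A : Finset (ι → ℤ)} {q q' : ι → ℝ}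
    (h : ∀ i ∈ I, q' i = q i) (hq : InC I A q) : InC I A q' := by
  obtain ⟨l, hl, hl2⟩ := hq
  exact ⟨l, hl, fun i hi => by rw [h i hi, hl2 i hi]⟩

theorem inC_add {ι : Type} {I : Finset ι} {A : Finset (ι → ℤ)} {q q' : ι → ℝ} {a : ι → ℤ}
    (ha : a ∈ A) (h : ∀ i ∈ I, q' i = q i + ((a i : ℤ) : ℝ)) (hq : InC I A q) : InC I A q' := by
  classical
  obtain ⟨l, hl, hl2⟩ := hq
  refine ⟨fun b => l b + if b = a then 1 else 0, ?_, ?_⟩
  · intro b
    have h1 := hl b
    show 0 ≤ l b + if b = a then (1 : ℝ) else 0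
    split_ifs <;> linarith
  · intro i hi
    rw [h i hi, hl2 i hi]
    simp only [add_mul, ite_mul, one_mul, zero_mul]
    rw [Finset.sum_add_distrib, Finset.sum_ite_eq', if_pos ha]

theorem rrs (hksg : KsgStmt) (hsph : SphStmt) (hspi : SpiStmt) (hgen : GenStmt)
    (htrs : TrsStmt) : RrsStmt := by
  clear hksg
  intro ι _ _ I A D κ N r hH hID hrI hrD hRR K _ _ _ f s η hf hη hU v T hT i hi
  have hTr : ∀ j ∈ T, j ≠ r := fun j hj hjr => hrI (hjr ▸ hT.1 hj)
  obtain ⟨Q, hQdef⟩ : ∃ Q : Set (ι → ℤ), Q = RG I D A v := ⟨_, rfl⟩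
  have hIr : ∀ j ∈ I, j ≠ r := fun j hj hjr => hrI (hjr ▸ hj)
  have hDr : ∀ j ∈ D, j ≠ r := fun j hj hjr => hrD (hjr ▸ hj)
  have hQinv : ∀ m ∈ Q, ∀ n : ℤ, Function.update m r n ∈ Q := by
    intro m hm n
    rw [hQdef] at hm ⊢
    refine ⟨inC_congr ?_ hm.1, ?_⟩
    · intro j hj
      show ((Function.update m r n j : ℤ) : ℝ) + v j = ((m j : ℤ) : ℝ) + v j
      rw [Function.update_of_ne (hIr j hj)]
    · intro j hj
      show Function.update m r n j = 0
      rw [Function.update_of_ne (hDr j hj)]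
      exact hm.2 j hj
  have hQr : Q ∩ {m | m r = 0} = RG I (insert r D) A v := by
    rw [hQdef]
    ext m
    constructor
    · rintro ⟨⟨h1, h2⟩, h3⟩
      refine ⟨h1, ?_⟩
      intro j hj
      rcases Finset.mem_insert.1 hj with rfl | hj
      · exact h3
      · exact h2 j hj
    · rintro ⟨h1, h2⟩
      exact ⟨⟨h1, fun j hj => h2 j (Finset.mem_insert_of_mem hj)⟩,
        h2 r (Finset.mem_insert_self _ _)⟩
  have hov : ∀ m ∈ ov I A ∩ dd D, ∀ e ∈ Q, e + m ∈ Q := by
    rintro m ⟨⟨a, ha, hma⟩, hmD⟩ e he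
    rw [hQdef] at he ⊢
    refine ⟨inC_add ha ?_ he.1, ?_⟩
    · intro j hj
      show (((e + m) j : ℤ) : ℝ) + v j = ((e j : ℤ) : ℝ) + v j + ((a j : ℤ) : ℝ)
      rw [Pi.add_apply, hma j hj]
      push_cast
      ring
    · intro j hj
      show e j + m j = 0
      rw [he.2 j hj, hmD j hj, add_zero]
  have hQa : ∀ j ∈ ix T 0, ∀ m, (opg f η j).coeff m ≠ 0 → ∀ e ∈ Q, e + m ∈ Q := by
    intro j _ m hm
    cases j with
    | inl j => exact hov m (tht_mem j hf m hm)
    | inr k => exact hov m (hη k m hm)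
  have hspz : ∀ (K' : Type) [Field K'] [Algebra K K'] (t : K') (h : Lr K ι),
      h ∈ MS K (ov I A ∩ dd D) → spz r t h ∈ MS K' (ov I A ∩ dd (insert r D)) := by
    intro K' _ _ t h hh m hm
    obtain ⟨m₀, h1, rfl⟩ := spz_exp r t h m hm
    obtain ⟨⟨a, ha, h2⟩, h3⟩ := hh m₀ h1
    refine ⟨⟨a, ha, ?_⟩, ?_⟩
    · intro j hj
      rw [Function.update_of_ne (hIr j hj)]
      exact h2 j hj
    · intro j hj
      show Function.update m₀ r 0 j = 0
      by_cases hjr : j = r
      · rw [hjr, Function.update_self]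
      · rw [Function.update_of_ne hjr]
        exact h3 j ((Finset.mem_insert.1 hj).resolve_left hjr)
  -- the generic fibre
  have hEa : ExP (fun j => spz r (algebraMap (Polynomial K)
      (AlgebraicClosure (FractionRing (Polynomial K))) Polynomial.X) (opg f η j)) (ix T 0)
      (MS (AlgebraicClosure (FractionRing (Polynomial K))) (Q ∩ {m | m r = 0})) ⊥ i := by
    rw [hQr]
    have hcz : CharZero (AlgebraicClosure (FractionRing (Polynomial K))) :=
      charZero_of_injective_algebraMap
        (algebraMap K (AlgebraicClosure (FractionRing (Polynomial K)))).injective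
    have ht0 : algebraMap (Polynomial K) (AlgebraicClosure (FractionRing (Polynomial K)))
        Polynomial.X ≠ 0 := by
      rw [IsScalarTower.algebraMap_apply (Polynomial K) (FractionRing (Polynomial K))]
      rw [map_ne_zero_iff _ (algebraMap (FractionRing (Polynomial K))
        (AlgebraicClosure (FractionRing (Polynomial K)))).injective]
      rw [map_ne_zero_iff _ (IsFractionRing.injective (Polynomial K)
        (FractionRing (Polynomial K)))]
      exact Polynomial.X_ne_zero
    refine exp_congr ?_ _ _ _ (hRR (AlgebraicClosure (FractionRing (Polynomial K)))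
      (spz r (algebraMap (Polynomial K)
        (AlgebraicClosure (FractionRing (Polynomial K))) Polynomial.X) f) s
      (fun k => spz r (algebraMap (Polynomial K)
        (AlgebraicClosure (FractionRing (Polynomial K))) Polynomial.X) (η k))
      (hspz _ _ f hf) (fun k => hspz _ _ (η k) (hη k)) ?_ v T hT i hi)
    · intro j hj
      cases j with
      | inl j =>
        have hjT : j ∈ T := by simpa [ix] using hj
        exact (((hsph ι K r).1 _ _ ht0).2.1 j (hTr j hjT) f).symm
      | inr k => rfl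
    · intro F hF hne
      exact hgen ι K I A D κ N r F f s η hH hID hrI hrD (isF_subset hF) hf hη (hU F hF hne)
  -- the special fibres
  have hEb : ∀ c : K, c ≠ 0 → ExP (fun j => spz r c (opg f η j)) (ix T 0)
      (MS K (Q ∩ {m | m r = 0})) ⊥ (i + 1) := by
    intro c hc
    rw [hQr]
    obtain ⟨⟨φ, hφ⟩, hφt, hφc⟩ := (hsph ι K r).1 K c hc
    obtain ⟨η', hη'⟩ : ∃ η' : ℕ → Lr K ι, η' = fun k => if k < s then spz r c (η k) else
      spz r c (tht r f) := ⟨_, rfl⟩
    refine exp_congr ?_ _ _ _ (hRR K (spz r c f) (s + 1) η' (hspz K c f hf) ?_ ?_ v T hT (i + 1)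
      (by omega))
    · intro j hj
      cases j with
      | inl j =>
        have hjT : j ∈ T := by simpa [ix] using hj
        exact (hφt j (hTr j hjT) f).symm
      | inr k =>
        exfalso
        simp [ix] at hj
    · intro k
      rw [hη']
      show (if k < s then spz r c (η k) else spz r c (tht r f)) ∈ _
      split_ifs
      · exact hspz K c _ (hη k)
      · exact hspz K c _ (tht_mem r hf)
    · intro F hF hne
      obtain ⟨E, hED, b, b', hb⟩ := hU F hF hne
      refine ⟨E.erase r, ?_, fun j => φ (b j),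
        fun k => if k < s then φ (b' k) else if r ∈ E then φ (b r) else 0, ?_⟩
      · rw [Finset.disjoint_left]
        intro j hj hjD
        rcases Finset.mem_insert.1 hjD with h1 | h1
        · exact (Finset.mem_erase.1 hj).1 h1
        · exact Finset.disjoint_left.1 hED (Finset.mem_erase.1 hj).2 h1
      · have h1 := congrArg φ hb
        rw [map_one, map_add, map_sum, map_sum] at h1
        rw [← h1]
        rw [Finset.sum_range_succ]
        have e1 : ∑ k ∈ Finset.range s, (if k < s then φ (b' k) else if r ∈ E then φ (b r) else 0) *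
            cut (ov I F) (η' k) = ∑ k ∈ Finset.range s, φ (b' k * cut (ov I F) (η k)) := by
          refine Finset.sum_congr rfl fun k hk => ?_
          have hks := Finset.mem_range.1 hk
          rw [if_pos hks, map_mul, hφ (cut (ov I F) (η k)), hφc I F (η k) hrI, hη']
          show φ (b' k) * cut (ov I F) (if k < s then spz r c (η k) else spz r c (tht r f)) = _
          rw [if_pos hks]
        have e2 : cut (ov I F) (η' s) = φ (tht r (cut (ov I F) f)) := by
          rw [hφ, tht_cut, hφc I F (tht r f) hrI, hη']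
          show cut (ov I F) (if s < s then spz r c (η s) else spz r c (tht r f)) = _
          rw [if_neg (lt_irrefl s)]
        have e3 : ∀ j, j ≠ r → φ (b j) * tht j (cut (ov I F) (spz r c f)) =
            φ (b j * tht j (cut (ov I F) f)) := by
          intro j hj
          rw [map_mul, hφ (tht j (cut (ov I F) f)), hφt j hj, hφc I F f hrI]
        beta_reduce
        rw [e1, if_neg (lt_irrefl s), e2]
        have e4 : ∑ j ∈ E.erase r, φ (b j) * tht j (cut (ov I F) (spz r c f)) =
            ∑ j ∈ E.erase r, φ (b j * tht j (cut (ov I F) f)) :=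
          Finset.sum_congr rfl fun j hj => e3 j (Finset.mem_erase.1 hj).1
        rw [e4]
        by_cases hrE : r ∈ E
        · rw [if_pos hrE, ← map_mul, ← Finset.sum_erase_add E _ hrE]
          ring
        · rw [if_neg hrE, Finset.erase_eq_of_notMem hrE, zero_mul, add_zero]
  -- removing the torsion
  have key : ∀ (n : ℕ) (x : Finset (ι ⊕ ℕ) → Lr K ι), Chn (ix T 0) (MS K Q) i x →
      ∀ (q : Polynomial K) (y : Finset (ι ⊕ ℕ) → Lr K ι), q ≠ 0 → q.natDegree = n →
      Chn (ix T 0) (MS K Q) (i + 1) y →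
      (∀ U, kd (opg f η) (ix T 0) y U = ev r q * x U) →
      ∃ y', Chn (ix T 0) (MS K Q) (i + 1) y' ∧ ∀ U, kd (opg f η) (ix T 0) y' U = x U := by
    intro n x hx
    induction n with
    | zero =>
      intro q y hq0 hqd hy hk
      have hqC := Polynomial.eq_C_of_natDegree_eq_zero hqd
      have hc : q.coeff 0 ≠ 0 := by
        intro h0
        apply hq0
        rw [hqC, h0, Polynomial.C_0]
      refine ⟨fun U => cst ι (q.coeff 0)⁻¹ * y U, chn_mul _ (fun g hg => cst_mul_mem _ hg) hy, ?_⟩
      intro U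
      rw [kd_mul, hk U, hqC, ev_C, Polynomial.coeff_C_zero, ← mul_assoc, cst_mul_cst,
        inv_mul_cancel₀ hc, cst_one, one_mul]
    | succ n ih =>
      intro q y hq0 hqd hy hk
      obtain ⟨c, hroot⟩ := IsAlgClosed.exists_root q (by
        rw [Polynomial.degree_eq_natDegree hq0, hqd]
        exact_mod_cast Nat.succ_ne_zero n)
      obtain ⟨q₁, hq₁⟩ := Polynomial.dvd_iff_isRoot.2 hroot
      have hq₁0 : q₁ ≠ 0 := by
        intro h0
        apply hq0
        rw [hq₁, h0, mul_zero]
      have hq₁d : q₁.natDegree = n := by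
        have h1 := hqd
        rw [hq₁, Polynomial.natDegree_mul (Polynomial.X_sub_C_ne_zero c) hq₁0,
          Polynomial.natDegree_X_sub_C] at h1
        omega
      have hk2 : ∀ U, kd (opg f η) (ix T 0) y U = (xr K r - cst ι c) * (ev r q₁ * x U) := by
        intro U
        rw [hk U, hq₁, ev_mul, ev_lin, mul_assoc]
      by_cases hc : c = 0
      · refine ih q₁ (fun U => (AddMonoidAlgebra.single (Pi.single r (-1)) 1 : Lr K ι) * y U) hq₁0
          hq₁d (chn_mul _ (fun g hg => single_mul_mem hQinv (-1) hg) hy) ?_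
        intro U
        have hinv : (AddMonoidAlgebra.single (Pi.single r (-1)) 1 : Lr K ι) * xr K r = 1 := by
          unfold xr
          rw [AddMonoidAlgebra.single_mul_single, ← Pi.single_add, mul_one]
          norm_num
          rfl
        rw [kd_mul, hk2 U, hc, cst_zero, sub_zero, ← mul_assoc, hinv, one_mul]
      · obtain ⟨y', hy', hk'⟩ := hspi (ι ⊕ ℕ) ι K r c (opg f η) (ix T 0) Q i hc hQinv hQa
          (hEb c hc) (fun U => ev r q₁ * x U) y
          (chn_mul _ (fun g hg => ev_mul_mem hQinv q₁ hg) hx) hy hk2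
        exact ih q₁ y' hq₁0 hq₁d hy' hk'
  rw [← hQdef]
  intro x hx hcyc
  obtain ⟨q, y, hq, hy, hyx⟩ := htrs (ι ⊕ ℕ) ι K r (opg f η) (ix T 0) Q i hQinv hEa x hx
    (funext fun U => AddSubgroup.mem_bot.1 (hcyc U))
  obtain ⟨y', hy', he⟩ := key _ x hx q y hq rfl hy hyx
  refine ⟨y', hy', fun U => ?_⟩
  rw [he U, sub_self]
  exact AddSubgroup.zero_mem _

end Pool.Agent.NDR.H88
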